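import Mathlib
import Pool.Agent.S03926

/-!
# A minimal representation of a Cantorval with infinitely many `x_n < r_{n+1}`
-/

open Set Filter Topology MeasureTheory

namespace Pool.Agent.Results.MP_61d686_an.TightCantorval

/-- The set of all subsums of the series with the terms `x n`, `n ∈ C`. For `C = univ` this is the
achievement set of `x`; for `C = Aᶜ` it is the achievement set of the sequence obtained by deleting
the terms with indices in `A`. -/
def subsums (x : ℕ → ℝ) (C : Set ℕ) : Set ℝ :=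
  {s | ∃ B : Set ℕ, B ⊆ C ∧ s = ∑' n, B.indicator x n}

/-- Cantorval: nonempty, compact, the closure of its interior, and both endpoints of every
nondegenerate component are in the closure of the set of one-point components. -/
def IsCantorval (K : Set ℝ) : Prop :=
  K.Nonempty ∧ IsCompact K ∧ closure (interior K) = K ∧
    ∀ p ∈ K, (connectedComponentIn K p).Nontrivial →
      sInf (connectedComponentIn K p) ∈ closure {y ∈ K | connectedComponentIn K y = {y}} ∧
      sSup (connectedComponentIn K p) ∈ closure {y ∈ K | connectedComponentIn K y = {y}}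

/-- The representation `x` is minimal: no deletion of infinitely many terms gives a set
homeomorphic to the achievement set of `x`. -/
def IsMinimalRep (x : ℕ → ℝ) : Prop :=
  ∀ A : Set ℕ, A.Infinite → ¬ Nonempty (↥(subsums x univ) ≃ₜ ↥(subsums x Aᶜ))

/-- `r_{n+1}` (indices from `0`): the sum of the terms with index at least `n + 2`. -/
noncomputable def skipTail (x : ℕ → ℝ) (n : ℕ) : ℝ := ∑' k, x (n + 2 + k)

/-- the digits of a block -/
noncomputable def w (i : ℕ) : ℝ := if i = 0 then 6 else if i = 1 then 5 else 4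

/-- The sequence `6, 5, 4, 6/8, 5/8, 4/8, 6/64, ...`. -/
noncomputable def x (n : ℕ) : ℝ := w (n % 3) / 8 ^ (n / 3)

lemma w_pos (i : ℕ) : 0 < w i := by unfold w; split_ifs <;> norm_num

lemma w_le (i : ℕ) : w i ≤ 6 := by unfold w; split_ifs <;> norm_num

lemma le_w (i : ℕ) : 4 ≤ w i := by unfold w; split_ifs <;> norm_num

lemma x_pos (n : ℕ) : 0 < x n := div_pos (w_pos _) (by positivity)

lemma x_shift1 (n : ℕ) : x (n + 3) = x n / 8 := by
  unfold x
  rw [Nat.add_mod_right, Nat.add_div_right n (by norm_num : 0 < 3), pow_succ]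
  field_simp

lemma x_shift (N n : ℕ) : x (n + 3 * N) = x n / 8 ^ N := by
  induction N with
  | zero => simp
  | succ N ih =>
    rw [show n + 3 * (N + 1) = (n + 3 * N) + 3 by ring, x_shift1, ih, pow_succ]
    field_simp

lemma x0 (q : ℕ) : x (3 * q) = 6 / 8 ^ q := by
  have := x_shift q 0
  rw [zero_add] at this
  rw [this]; simp [x, w]

lemma x1 (q : ℕ) : x (3 * q + 1) = 5 / 8 ^ q := by
  have := x_shift q 1
  rw [add_comm] at this
  rw [this]; simp [x, w]

lemma x2 (q : ℕ) : x (3 * q + 2) = 4 / 8 ^ q := by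
  have := x_shift q 2
  rw [add_comm] at this
  rw [this]; simp [x, w]

lemma x_antitone : Antitone x := by
  apply antitone_nat_of_succ_le
  intro n
  obtain ⟨q, hq⟩ : ∃ q, n = 3 * q ∨ n = 3 * q + 1 ∨ n = 3 * q + 2 := ⟨n / 3, by omega⟩
  have h8 : (0 : ℝ) < 8 ^ q := by positivity
  rcases hq with rfl | rfl | rfl
  · rw [x1, x0]; gcongr; norm_num
  · rw [show 3 * q + 1 + 1 = 3 * q + 2 by ring, x2, x1]; gcongr; norm_num
  · rw [show 3 * q + 2 + 1 = 3 * q + 3 by ring, x_shift1, x0, x2, div_div]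
    rw [div_le_div_iff₀ (by positivity) h8]
    nlinarith

lemma x_summable : Summable x := by
  have hg : Summable (fun n : ℕ => (24 : ℝ) * (1 / 2) ^ n) :=
    (summable_geometric_of_lt_one (by norm_num) (by norm_num)).mul_left 24
  refine Summable.of_nonneg_of_le (fun n => (x_pos n).le) (fun n => ?_) hg
  have h1 : (2 : ℝ) ^ n ≤ 4 * 8 ^ (n / 3) := by
    have h2 : n ≤ 3 * (n / 3) + 2 := by omega
    calc (2 : ℝ) ^ n ≤ 2 ^ (3 * (n / 3) + 2) := pow_le_pow_right₀ (by norm_num) h2
      _ = 4 * 8 ^ (n / 3) := by rw [pow_add, pow_mul]; norm_num; ring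
  unfold x
  have h8 : (0 : ℝ) < 8 ^ (n / 3) := by positivity
  have h2 : (0 : ℝ) < 2 ^ n := by positivity
  rw [one_div, inv_pow, ← div_eq_mul_inv, div_le_div_iff₀ h8 h2]
  have := w_le (n % 3)
  have := w_pos (n % 3)
  nlinarith

lemma x_tsum : ∑' n, x n = 120 / 7 := by
  have h := x_summable.sum_add_tsum_nat_add 3
  have h1 : ∑' n, x (n + 3) = (∑' n, x n) / 8 := by
    rw [← tsum_div_const]
    exact tsum_congr x_shift1
  rw [h1] at h
  have h2 : ∑ i ∈ Finset.range 3, x i = 15 := by
    simp [Finset.sum_range_succ, x, w]; norm_num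
  rw [h2] at h
  linarith

/-! ### the achievement set -/

open Pool.Agent.S03926 in
lemma subsums_univ (y : ℕ → ℝ) : subsums y univ = E y := by
  ext s
  constructor
  · rintro ⟨B, -, h⟩; exact ⟨B, h⟩
  · rintro ⟨B, h⟩; exact ⟨B, subset_univ _, h⟩

/-- notation for the achievement set -/
abbrev K : Set ℝ := Pool.Agent.S03926.E x

lemma E_div (N : ℕ) (e : ℝ) :
    e / 8 ^ N ∈ Pool.Agent.S03926.E (fun n => x (n + 3 * N)) ↔ e ∈ K := by
  have hf : (fun n => x (n + 3 * N)) = fun n => x n / 8 ^ N := funext (x_shift N)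
  have h8 : (8 : ℝ) ^ N ≠ 0 := by positivity
  rw [hf]
  have key : ∀ B : Set ℕ, ∑' n, B.indicator (fun n => x n / 8 ^ N) n =
      (∑' n, B.indicator x n) / 8 ^ N := by
    intro B
    rw [← tsum_div_const]
    refine tsum_congr fun n => ?_
    by_cases hn : n ∈ B <;> simp [hn]
  constructor
  · rintro ⟨B, hB⟩
    refine ⟨B, ?_⟩
    rw [key] at hB
    exact (div_left_inj' h8).mp hB
  · rintro ⟨B, rfl⟩
    exact ⟨B, (key B).symm⟩

lemma mem_cons (n : ℕ) (F : Finset ℕ) (hF : F ⊆ Finset.range (3 * n)) {e : ℝ} (he : e ∈ K) :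
    ∑ i ∈ F, x i + e / 8 ^ n ∈ K :=
  Pool.Agent.S03926.gE_cons x_summable _ F hF _ ((E_div n e).2 he)

lemma mem_dec (n : ℕ) {s : ℝ} (hs : s ∈ K) :
    ∃ F : Finset ℕ, F ⊆ Finset.range (3 * n) ∧ ∃ e ∈ K, s = ∑ i ∈ F, x i + e / 8 ^ n := by
  obtain ⟨F, hF, e, he, h⟩ := Pool.Agent.S03926.gE_dec x_summable (3 * n) s hs
  have h8 : (8 : ℝ) ^ n ≠ 0 := by positivity
  refine ⟨F, hF, e * 8 ^ n, ?_, ?_⟩
  · rw [← E_div n, mul_div_cancel_right₀ _ h8]; exact he
  · rw [mul_div_cancel_right₀ _ h8]; exact h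

lemma K_nonneg {s : ℝ} (hs : s ∈ K) : 0 ≤ s := Pool.Agent.S03926.gE_nonneg x_pos s hs

lemma K_le {s : ℝ} (hs : s ∈ K) : s ≤ 120 / 7 := by
  have := K_nonneg (Pool.Agent.S03926.gE_symm x_summable s hs)
  rw [x_tsum] at this
  linarith

lemma zero_mem : (0 : ℝ) ∈ K := ⟨∅, by simp⟩

lemma K_closed : IsClosed K := (Pool.Agent.S03926.gE_compact x_pos x_summable).isClosed

lemma gap0 {s : ℝ} (hs : s ∈ K) (h4 : s < 4) : 8 * s ∈ K := by
  obtain ⟨F, hF, e, he, h⟩ := mem_dec 1 hs
  have he0 := K_nonneg he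
  rcases F.eq_empty_or_nonempty with rfl | ⟨i, hi⟩
  · rw [Finset.sum_empty, zero_add, pow_one] at h
    rw [h, mul_div_cancel₀ _ (by norm_num)]
    exact he
  · exfalso
    have h1 : x i ≤ ∑ j ∈ F, x j := Finset.single_le_sum (fun j _ => (x_pos j).le) hi
    have h2 : i < 3 := by simpa using hF hi
    have h3 : 4 ≤ x i := by
      unfold x
      rw [Nat.div_eq_of_lt h2, pow_zero, div_one]
      exact le_w _
    have h4' : 0 ≤ e / 8 ^ 1 := by positivity
    linarith

lemma gap (k : ℕ) : (3 : ℝ) / 8 ^ k ∉ K := by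
  induction k with
  | zero =>
    intro h
    rw [pow_zero, div_one] at h
    have := K_le (gap0 h (by norm_num))
    norm_num at this
  | succ k ih =>
    intro h
    apply ih
    have h1 : (3 : ℝ) / 8 ^ (k + 1) < 4 := by
      rw [div_lt_iff₀ (by positivity)]
      have : (1 : ℝ) ≤ 8 ^ (k + 1) := one_le_pow₀ (by norm_num)
      linarith
    have h2 := gap0 h h1
    rwa [pow_succ, show (8 : ℝ) * (3 / (8 ^ k * 8)) = 3 / 8 ^ k by field_simp] at h2

lemma small (δ : ℝ) (hδ : 0 < δ) (C : ℝ) (hC : 0 < C) : ∃ j : ℕ, C / 8 ^ j < δ := by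
  obtain ⟨j, hj⟩ := exists_pow_lt_of_lt_one (show 0 < δ / C by positivity)
    (show (1 / 8 : ℝ) < 1 by norm_num)
  refine ⟨j, ?_⟩
  rw [div_pow, one_pow, lt_div_iff₀ hC] at hj
  calc C / 8 ^ j = 1 / 8 ^ j * C := by ring
    _ < δ := hj

lemma HZ : ∀ δ > 0, ∃ v, 0 < v ∧ v < δ ∧ v ∉ K := by
  intro δ hδ
  obtain ⟨j, hj⟩ := small δ hδ 3 (by norm_num)
  exact ⟨3 / 8 ^ j, by positivity, hj, gap j⟩

/-! ### an interval in the achievement set -/

lemma digit (r : ℕ) (hr : r < 8) : ∃ d : ℕ, d ≤ 15 ∧ d % 8 = r ∧ ∃ S : Finset ℕ,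
    S ⊆ Finset.range 3 ∧ ∑ i ∈ S, w i = d := by
  interval_cases r
  · exact ⟨0, by norm_num, rfl, ∅, by simp, by simp⟩
  · exact ⟨9, by norm_num, rfl, {1, 2}, by decide, by simp [w]; norm_num⟩
  · exact ⟨10, by norm_num, rfl, {0, 2}, by decide, by simp [w]; norm_num⟩
  · exact ⟨11, by norm_num, rfl, {0, 1}, by decide, by simp [w]; norm_num⟩
  · exact ⟨4, by norm_num, rfl, {2}, by decide, by simp [w]⟩
  · exact ⟨5, by norm_num, rfl, {1}, by decide, by simp [w]⟩
  · exact ⟨6, by norm_num, rfl, {0}, by decide, by simp [w]⟩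
  · exact ⟨15, by norm_num, rfl, {0, 1, 2}, by decide, by simp [w]; norm_num⟩

lemma x_low (i : ℕ) (hi : i < 3) : x i = w i := by
  unfold x
  rw [Nat.div_eq_of_lt hi, pow_zero, div_one, Nat.mod_eq_of_lt hi]

lemma pow8 (n : ℕ) : ∃ k : ℕ, 8 ^ n = 7 * k + 1 := by
  induction n with
  | zero => exact ⟨0, rfl⟩
  | succ n ih => obtain ⟨k, hk⟩ := ih; exact ⟨8 * k + 1, by rw [pow_succ, hk]; ring⟩

lemma level (n : ℕ) : ∀ m : ℕ, 36 * 8 ^ n ≤ 7 * m + 8 → m + 1 ≤ 7 * 8 ^ n →
    ∃ F : Finset ℕ, F ⊆ Finset.range (3 * (n + 1)) ∧ ∑ i ∈ F, x i = m / 8 ^ n := by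
  induction n with
  | zero =>
    intro m h1 h2
    have h3 : 4 ≤ m := by omega
    have h4 : m ≤ 6 := by omega
    interval_cases m
    · exact ⟨{2}, by decide, by simp [x_low, w]⟩
    · exact ⟨{1}, by decide, by simp [x_low, w]⟩
    · exact ⟨{0}, by decide, by simp [x_low, w]⟩
  | succ n ih =>
    intro m h1 h2
    obtain ⟨k, hk⟩ := pow8 n
    obtain ⟨d, hd, hdr, S, hS, hSd⟩ := digit (m % 8) (Nat.mod_lt _ (by norm_num))
    rw [pow_succ, hk] at h1 h2
    obtain ⟨a, ha⟩ : ∃ a, m = 8 * a + d := ⟨(m - d) / 8, by omega⟩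
    obtain ⟨F, hF, hFs⟩ := ih a (by rw [hk]; omega) (by rw [hk]; omega)
    refine ⟨F ∪ S.map (addRightEmbedding (3 * (n + 1))), ?_, ?_⟩
    · intro i hi
      rw [Finset.mem_union] at hi
      rcases hi with hi | hi
      · have := hF hi
        rw [Finset.mem_range] at this ⊢
        omega
      · rw [Finset.mem_map] at hi
        obtain ⟨j, hj, rfl⟩ := hi
        have := hS hj
        rw [Finset.mem_range] at this ⊢
        simp only [addRightEmbedding_apply]
        omega
    · rw [Finset.sum_union]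
      · rw [hFs, Finset.sum_map]
        have : ∑ i ∈ S, x ((addRightEmbedding (3 * (n + 1))) i) = (d : ℝ) / 8 ^ (n + 1) := by
          rw [← hSd, Finset.sum_div]
          refine Finset.sum_congr rfl fun i hi => ?_
          rw [addRightEmbedding_apply, x_shift, x_low i (by simpa using hS hi)]
        rw [this, ha, pow_succ]
        push_cast
        field_simp
      · rw [Finset.disjoint_left]
        intro i hi hi'
        rw [Finset.mem_map] at hi'
        obtain ⟨j, hj, rfl⟩ := hi'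
        have := hF hi
        rw [Finset.mem_range] at this
        simp only [addRightEmbedding_apply] at this
        omega

lemma interval {t : ℝ} (h1 : 36 / 7 ≤ t) (h2 : t < 7) : t ∈ K := by
  rw [← K_closed.closure_eq, Metric.mem_closure_iff]
  intro δ hδ
  obtain ⟨j, hj⟩ := small δ hδ 1 one_pos
  have h8 : (0 : ℝ) < 8 ^ j := by positivity
  set m := ⌊t * 8 ^ j⌋₊ with hm
  have ht : 0 ≤ t * 8 ^ j := by positivity
  have hm1 : (m : ℝ) ≤ t * 8 ^ j := Nat.floor_le ht
  have hm2 : t * 8 ^ j < m + 1 := Nat.lt_floor_add_one _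
  obtain ⟨F, hF, hFs⟩ := level j m (by
    have : (36 : ℝ) * 8 ^ j < 7 * m + 8 := by nlinarith
    exact_mod_cast this.le) (by
    have : (m : ℝ) < 7 * 8 ^ j := by nlinarith
    exact_mod_cast this)
  refine ⟨m / 8 ^ j, ?_, ?_⟩
  · have := mem_cons (j + 1) F hF zero_mem
    rwa [hFs, zero_div, add_zero] at this
  · rw [Real.dist_eq, abs_lt]
    have h3 : (m : ℝ) / 8 ^ j ≤ t := by rw [div_le_iff₀ h8]; exact hm1
    have h4 : t < m / 8 ^ j + 1 / 8 ^ j := by
      rw [← add_div, lt_div_iff₀ h8]; exact hm2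
    constructor <;> linarith

lemma closure_int : closure (interior K) = K := by
  apply Subset.antisymm
  · exact (closure_mono interior_subset).trans K_closed.closure_eq.subset
  · intro u hu
    rw [Metric.mem_closure_iff]
    intro δ hδ
    obtain ⟨j, hj⟩ := small δ hδ 18 (by norm_num)
    have h8 : (0 : ℝ) < 8 ^ j := by positivity
    obtain ⟨F, hF, e, he, hue⟩ := mem_dec j hu
    have hsub : Ioo (∑ i ∈ F, x i + (36 / 7) / 8 ^ j) (∑ i ∈ F, x i + 7 / 8 ^ j) ⊆ K := by
      intro v hv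
      have h1 : v = ∑ i ∈ F, x i + ((v - ∑ i ∈ F, x i) * 8 ^ j) / 8 ^ j := by
        rw [mul_div_cancel_right₀ _ h8.ne']; ring
      rw [h1]
      apply mem_cons j F hF
      apply interval
      · have := hv.1
        rw [← sub_pos] at this
        have h2 : (36 / 7 : ℝ) / 8 ^ j ≤ v - ∑ i ∈ F, x i := by linarith
        rwa [div_le_iff₀ h8] at h2
      · have h2 : v - ∑ i ∈ F, x i < 7 / 8 ^ j := by linarith [hv.2]
        rwa [lt_div_iff₀ h8] at h2
    refine ⟨∑ i ∈ F, x i + 6 / 8 ^ j, ?_, ?_⟩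
    · apply interior_maximal hsub isOpen_Ioo
      constructor
      · gcongr; norm_num
      · gcongr; norm_num
    · rw [Real.dist_eq, hue]
      have h1 := K_nonneg he
      have h2 := K_le he
      rw [show ∑ i ∈ F, x i + e / 8 ^ j - (∑ i ∈ F, x i + 6 / 8 ^ j) = (e - 6) / 8 ^ j by ring,
        abs_div, abs_of_pos h8]
      refine lt_of_le_of_lt ?_ hj
      gcongr
      rw [abs_le]
      constructor <;> linarith

theorem cantorval : IsCantorval (subsums x univ) := by
  rw [subsums_univ]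
  exact ⟨⟨0, zero_mem⟩, Pool.Agent.S03926.gE_compact x_pos x_summable, closure_int,
    Pool.Agent.S03926.endpoints x_pos x_summable HZ⟩

/-! ### minimality -/

lemma cover (A : Set ℕ) [DecidablePred (· ∈ A)] (N : ℕ) :
    subsums x Aᶜ ⊆ ⋃ F ∈ ((Finset.range (3 * N)).filter (· ∉ A)).powerset,
      Icc (∑ i ∈ F, x i) (∑ i ∈ F, x i + (120 / 7) / 8 ^ N) := by
  classical
  rintro s ⟨B, hB, rfl⟩
  rw [mem_iUnion₂]
  refine ⟨(Finset.range (3 * N)).filter (· ∈ B), ?_, ?_⟩
  · rw [Finset.mem_powerset]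
    intro i hi
    rw [Finset.mem_filter] at hi ⊢
    exact ⟨hi.1, hB hi.2⟩
  · have h1 := (x_summable.indicator B).sum_add_tsum_nat_add (3 * N)
    have h2 : ∑ i ∈ Finset.range (3 * N), B.indicator x i =
        ∑ i ∈ (Finset.range (3 * N)).filter (· ∈ B), x i := by
      rw [Finset.sum_filter]
      exact Finset.sum_congr rfl fun i _ => by rw [indicator_apply]
    have h3 : 0 ≤ ∑' n, B.indicator x (n + 3 * N) :=
      tsum_nonneg fun n => indicator_nonneg (fun n _ => (x_pos n).le) _
    have h4 : ∑' n, B.indicator x (n + 3 * N) ≤ (120 / 7) / 8 ^ N := by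
      rw [← x_tsum, ← tsum_div_const]
      refine Summable.tsum_le_tsum (fun n => ?_)
        ((summable_nat_add_iff (f := B.indicator x) (3 * N)).2 (x_summable.indicator B))
        (x_summable.div_const _)
      rw [← x_shift]
      exact indicator_le_self' (fun _ _ => (x_pos _).le) _
    rw [← h1, h2]
    constructor <;> linarith

lemma null (A : Set ℕ) (hA : A.Infinite) : volume (subsums x Aᶜ) = 0 := by
  classical
  have key : ∀ M : ℕ, volume (subsums x Aᶜ) ≤ ENNReal.ofReal ((120 / 7) * (1 / 2) ^ M) := by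
    intro M
    obtain ⟨T, hTA, hTc⟩ := hA.exists_subset_card_eq M
    obtain ⟨N, hN⟩ : ∃ N, T ⊆ Finset.range (3 * N) := by
      refine ⟨T.sup id + 1, fun i hi => ?_⟩
      rw [Finset.mem_range]
      have : i ≤ T.sup id := Finset.le_sup (f := id) hi
      omega
    have hcard : ((Finset.range (3 * N)).filter (· ∉ A)).card + M ≤ 3 * N := by
      have hdis : Disjoint ((Finset.range (3 * N)).filter (· ∉ A)) T := by
        rw [Finset.disjoint_left]
        intro i hi hi'
        exact (Finset.mem_filter.mp hi).2 (hTA hi')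
      rw [← hTc, ← Finset.card_union_of_disjoint hdis]
      calc _ ≤ (Finset.range (3 * N)).card :=
            Finset.card_le_card (Finset.union_subset (Finset.filter_subset _ _) hN)
        _ = 3 * N := Finset.card_range _
    calc volume (subsums x Aᶜ)
        ≤ volume (⋃ F ∈ ((Finset.range (3 * N)).filter (· ∉ A)).powerset,
          Icc (∑ i ∈ F, x i) (∑ i ∈ F, x i + (120 / 7) / 8 ^ N)) := measure_mono (cover A N)
      _ ≤ ∑ F ∈ ((Finset.range (3 * N)).filter (· ∉ A)).powerset,
          volume (Icc (∑ i ∈ F, x i) (∑ i ∈ F, x i + (120 / 7) / 8 ^ N)) :=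
          measure_biUnion_finset_le _ _
      _ = ∑ F ∈ ((Finset.range (3 * N)).filter (· ∉ A)).powerset,
          ENNReal.ofReal ((120 / 7) / 8 ^ N) := by
          refine Finset.sum_congr rfl fun F _ => ?_
          rw [Real.volume_Icc, add_sub_cancel_left]
      _ = ENNReal.ofReal (2 ^ ((Finset.range (3 * N)).filter (· ∉ A)).card *
          ((120 / 7) / 8 ^ N)) := by
          rw [Finset.sum_const, Finset.card_powerset, nsmul_eq_mul,
            ENNReal.ofReal_mul (by positivity)]
          congr 1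
          rw [ENNReal.ofReal_pow (by norm_num)]
          simp
      _ ≤ ENNReal.ofReal ((120 / 7) * (1 / 2) ^ M) := by
          apply ENNReal.ofReal_le_ofReal
          set c := ((Finset.range (3 * N)).filter (· ∉ A)).card with hc
          have h1 : (2 : ℝ) ^ c * 2 ^ M ≤ 8 ^ N := by
            rw [← pow_add]
            calc (2 : ℝ) ^ (c + M) ≤ 2 ^ (3 * N) := pow_le_pow_right₀ (by norm_num) hcard
              _ = 8 ^ N := by rw [pow_mul]; norm_num
          rw [div_pow, one_pow]
          have h8 : (0 : ℝ) < 8 ^ N := by positivity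
          have h2 : (0 : ℝ) < 2 ^ M := by positivity
          rw [mul_one_div, ← mul_div_assoc, div_le_div_iff₀ h8 h2]
          nlinarith
  refine le_antisymm ?_ bot_le
  have hlim : Tendsto (fun M : ℕ => ENNReal.ofReal ((120 / 7) * (1 / 2) ^ M)) atTop (𝓝 0) := by
    rw [← ENNReal.ofReal_zero]
    apply ENNReal.tendsto_ofReal
    have := (tendsto_pow_atTop_nhds_zero_of_lt_one (r := (1 / 2 : ℝ)) (by norm_num)
      (by norm_num)).const_mul (120 / 7)
    simpa using this
  exact ge_of_tendsto' hlim key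

theorem minimal : IsMinimalRep x := by
  rintro A hA ⟨h⟩
  have hnull := null A hA
  have hsub : ∀ t : ↥(Icc (6 : ℝ) (13 / 2)), (t : ℝ) ∈ subsums x univ := by
    intro t
    rw [subsums_univ]
    exact interval (by have := t.2.1; linarith) (by have := t.2.2; linarith)
  let g : ↥(Icc (6 : ℝ) (13 / 2)) → ℝ := fun t => (h ⟨t, hsub t⟩ : ℝ)
  have hg : Continuous g := by
    apply continuous_subtype_val.comp
    apply h.continuous.comp
    exact Continuous.subtype_mk continuous_subtype_val _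
  have : PreconnectedSpace ↥(Icc (6 : ℝ) (13 / 2)) :=
    Subtype.preconnectedSpace isPreconnected_Icc
  have hpre : IsPreconnected (range g) := isPreconnected_range hg
  have hrange : range g ⊆ subsums x Aᶜ := by
    rintro _ ⟨t, rfl⟩
    exact (h ⟨t, hsub t⟩).2
  set a : ↥(Icc (6 : ℝ) (13 / 2)) := ⟨6, by norm_num, by norm_num⟩ with ha
  set b : ↥(Icc (6 : ℝ) (13 / 2)) := ⟨13 / 2, by norm_num, by norm_num⟩ with hb
  have hne : g a ≠ g b := by
    intro hab
    have h1 := h.injective (Subtype.ext hab)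
    have h2 : (6 : ℝ) = 13 / 2 := congrArg Subtype.val h1
    norm_num at h2
  have hIcc : ∀ u v : ℝ, u ∈ range g → v ∈ range g → u < v → False := by
    intro u v hu hv huv
    have h1 : Icc u v ⊆ subsums x Aᶜ := (hpre.Icc_subset hu hv).trans hrange
    have h2 : volume (Icc u v) = 0 := measure_mono_null h1 hnull
    rw [Real.volume_Icc, ENNReal.ofReal_eq_zero] at h2
    linarith
  rcases lt_or_gt_of_ne hne with h1 | h1
  · exact hIcc _ _ ⟨a, rfl⟩ ⟨b, rfl⟩ h1
  · exact hIcc _ _ ⟨b, rfl⟩ ⟨a, rfl⟩ h1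

lemma skip (q : ℕ) : x (3 * q) < skipTail x (3 * q) := by
  unfold skipTail
  have h8 : (0 : ℝ) < 8 ^ q := by positivity
  have h1 : ∑' k, x (3 * q + 2 + k) = (∑' k, x (k + 2)) / 8 ^ q := by
    rw [← tsum_div_const]
    refine tsum_congr fun k => ?_
    rw [← x_shift]
    congr 1
    ring
  have h2 := x_summable.sum_add_tsum_nat_add 2
  have h3 : ∑ i ∈ Finset.range 2, x i = 11 := by
    simp [Finset.sum_range_succ, x, w]; norm_num
  rw [h3, x_tsum] at h2
  have h4 : ∑' k, x (k + 2) = 43 / 7 := by linarith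
  rw [h1, h4, x0]
  gcongr
  norm_num

lemma infinite : {n | x n < skipTail x n}.Infinite := by
  apply Set.infinite_of_injective_forall_mem (f := fun q : ℕ => 3 * q)
  · intro a b hab
    have : 3 * a = 3 * b := hab
    omega
  · exact skip

/-- **Main result.** The sequence `6, 5, 4, 6/8, 5/8, 4/8, 6/64, ...` is a minimal representation
of a Cantorval, although `x_n < r_{n+1}` for infinitely many `n`. -/
theorem result :
    (∀ n, 0 < x n) ∧ Antitone x ∧ Summable x ∧ IsCantorval (subsums x univ) ∧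
      IsMinimalRep x ∧ {n | x n < skipTail x n}.Infinite ∧
    ¬ ∀ y : ℕ → ℝ, (∀ n, 0 < y n) → Antitone y → Summable y → IsCantorval (subsums y univ) →
      (IsMinimalRep y ↔ {n | y n < skipTail y n}.Finite) := by
  refine ⟨x_pos, x_antitone, x_summable, cantorval, minimal, infinite, fun h => ?_⟩
  exact infinite ((h x x_pos x_antitone x_summable cantorval).1 minimal)

end Pool.Agent.Results.MP_61d686_an.TightCantorval
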